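import Pool.Agent.helper748_eq.Main
import Pool.Agent.helper748_mc.Iso9

set_option autoImplicit false

/-! # The equivariant motivic monodromy conjecture for isotrivial pencils of lines

Let `f` be a form of degree `d` in three variables which is in some linear coordinates of the form
`(h / r) L ^ j G(a L ^ k, b)`, `L = l x₂ + m`, with `h`, `r`, `a`, `b`, `l`, `m` in `x₀`, `x₁`, and
`G(u, v)` a form which is not divisible by `u` or `v`, such that `G` and `h r a b l` have enough
roots, counted as in `IsotrivialForm`. The equivariant motivic zeta function `Z_f(T) ∈ 𝓜^μ_{X_s}[[T]]` of Denef and Loeser, over
`X_s = {f = 0}` and with the action of `μ`, is computed from the curve `f = 0` in the projective plane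
by blowing up points: see `EqCone`, where `M = 𝓜^μ_{X_s}`. The classes of the coverings `Ẽ_I°` of the
strata of the resolution are arbitrary elements of `M` in `EqCone`, except for the intersection
points of components, and for the open parts of the exceptional curves over a point on which at
most two points have a nonzero intersection number with the other components (`IsCov`): these are
the classes which occur in the cancellation.

Geometrically: the curve `f = 0` (with its multiplicities) is cut by the lines through some point
`(0 : 0 : 1)` in divisors of the affine lines (the lines minus that point) which are, apart from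
finitely many lines, isomorphic to each other; `L = 0` passes through the fixed points, if there are
symmetries. If there are enough special lines, counted as in `IsotrivialForm`, then `b(-3/d) = 0`.
Examples are the forms `A x₂ ^ 2 + B x₂ + C`, that is the curves of degree `d` with a point of
multiplicity `d - 2`, and the forms `h x₂ ^ j (a x₂ ^ k + b) ^ n`, and more generally
`h x₂ ^ j ∏ (a x₂ ^ k - ρ_i b) ^ (n_i)`.

All poles except possibly `-3/d` are roots of `b` (`plane_eq`):

* `local_eq`: let `s₀` be no root of `b`. The functional equation implies that every exceptional
  curve with `ν + N s₀ = 0` has at most two points with a nonzero intersection number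
  with the other components when it is created, and that these numbers are `u₁`, `u₂` with
  `u₁ + u₂ = N`; hence the covering of the curve is trivial with the group `μ_e`, `e = gcd (u₁, u₂)`,
  apart from these points, where it is the same one, and the terms with this denominator cancel,
  by an induction over the blow-ups;
* `exists_univE`, `descent`: in the universal case, the ring `ℤ[L, L⁻¹]` with variables for all the
  classes, which is factorial, the denominators which belong to no root can be removed one by one.

The proof of `b(-3/d) = 0`:

* `ex_main`: a functional equation gives an identity
  `b(c) f ^ (K + 1) = ∑ (f ∂_i v_i(c) + (c - K) (∂_i f) v_i(c))` with forms `v_i(c)` of the degree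
  `d K + 1` which depend polynomially on `c`; so `b(c) f ^ c` is the divergence of `v(c) f ^ (c - K)`;
* `exact_two`: for `c = -3/d` this gives such an identity in the two variables `x₀`, `x₂`;
* `line_not_exact`, `exists_penSys`: with `W = a L ^ k / b` and `G(W, 1) = γ(W)`, the one-form
  `W ^ θ γ(W) ^ (-3/d) dW / W` is not the differential of a function
  `W ^ θ γ(W) ^ (-3/d) κ(W)`, `κ` rational with poles at `0` and the roots of `γ` (count of zeros); so
  there is a linear functional on the twisted one-forms on the `W`-line which vanishes on the exact
  forms and not on this one;
* `gpsi`, `Gn`, `Gn_G`, `Gn_exact`: it defines integrals of `L ^ i f ^ (-3/d - K)` over the line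
  `x₀ = t`, `x₁ = 1`, which vanish on derivatives with respect to `L`;
* `HasPD`, `Gn_deriv`, `zL_poly`, `zL_deriv`, `iso_eq`: their derivatives with respect to `t`; this
  gives a differential equation of the first order with a solution `κ / (h r a b l) ^ M`, `κ` a
  polynomial;
* `LogF`, `ord_ode`: the order of the solution at each root of `h r a b l`; `ode_count_gen`: the sum
  of these orders would be greater than the degree of `κ`. (So the integral of `f ^ (-3/d) Ω` over
  the lines through `(0 : 0 : 1)` is a form `∏ (t - t_i) ^ e_i dt` which is not exact.) -/

namespace Pool.Agent.Results.MP_b48657_ag.IsotrivialForms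

open MvPolynomial Pool.Agent.W574.CN Pool.Agent.W574.MO Pool.Agent.H628R4.TP
  Pool.Agent.Helper748.MC Pool.Agent.Helper748.EQ

/-- **The equivariant motivic monodromy conjecture (over `X_s`, with the action of `μ`, in the form
with the roots of `b_f`) holds for the forms `f` of degree `d` in three variables** with
`IsotrivialForm d f`: in some linear coordinates `f = (h / r) L ^ j G(a L ^ k, b)`, `L = l x₂ + m`,
with `h`, `r`, `a`, `b`, `l`, `m` in `x₀`, `x₁`, such that `G` and `h r a b l` have enough roots. Here
`b` is any polynomial which satisfies a global or local functional equation
`b(s) f ^ s = P(s) f ^ (s + 1)`, in particular the Bernstein-Sato polynomial of `f`, and `Z` is (of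
the form of) the equivariant motivic zeta function of `f`, see `EqCone`, with `M = 𝓜^μ_{X_s}` as the
main example. The conclusion is that `Z` lies in the ring `M[T][(1 - L⁻ⁿ Tᵃ)⁻¹]`, where the pairs
`a, n ≥ 1` are such that `-n/a` is a root of `b`. -/
theorem result {M : Type} [CommRing M] (L : Mˣ) (f : MvPolynomial (Fin 3) ℂ) (d : ℕ)
    (hf : f.IsHomogeneous d) (h : IsotrivialForm d f) (b : Polynomial ℂ)
    (hb : IsBFunction f b ∨ IsLocalBFunction f b) (Z : PowerSeries M) (hZ : EqCone L f d Z) :
    Z ∈ DenRing L (RootPair b) := by
  have hb' := global_of f (not_exact_isotrivial hf h).1 d hf b hb
  exact cone_eq L f d hf b (funEq_unit f b hb') (iso_single f d hf h b hb') Z hZ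

end Pool.Agent.Results.MP_b48657_ag.IsotrivialForms
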