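import Pool.Agent.helper748_eq.Main

set_option autoImplicit false

/-! # The equivariant motivic monodromy conjecture for plane curves of degree `d` with a point of multiplicity `d - 1`

Let `f` be a form of degree `d > 0` in three variables such that the curve `f = 0` in the projective
plane has a point of multiplicity `d - 1`, and such that some line which is a simple factor of the
tangent cone at this point is not a component of the curve. The equivariant motivic zeta function `Z_f(T) ∈ 𝓜^μ_{X_s}[[T]]` of Denef and Loeser, over
`X_s = {f = 0}` and with the action of `μ`, is computed from the curve `f = 0` in the projective plane
by blowing up points: see `EqCone`, where `M = 𝓜^μ_{X_s}`. The classes of the coverings `Ẽ_I°` of the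
strata of the resolution are arbitrary elements of `M` in `EqCone`, except for the intersection
points of components, and for the open parts of the exceptional curves over a point on which at
most two points have a nonzero intersection number with the other components (`IsCov`): these are
the classes which occur in the cancellation.

All poles except possibly `-3/d` are roots of `b` (`plane_eq`):

* `local_eq`: let `s₀` be no root of `b`. The functional equation implies that every exceptional
  curve with `ν + N s₀ = 0` has at most two points with a nonzero intersection number
  with the other components when it is created, and that these numbers are `u₁`, `u₂` with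
  `u₁ + u₂ = N`; hence the covering of the curve is trivial with the group `μ_e`, `e = gcd (u₁, u₂)`,
  apart from these points, where it is the same one, and the terms with this denominator cancel,
  by an induction over the blow-ups;
* `exists_univE`, `descent`: in the universal case, the ring `ℤ[L, L⁻¹]` with variables for all the
  classes, which is factorial, the denominators which belong to no root can be removed one by one.

The proof of `b(-3/d) = 0`:

* `ex_main`: a functional equation gives an identity
  `b(c) f ^ (K + 1) = ∑ (f ∂_i v_i(c) + (c - K) (∂_i f) v_i(c))` with forms `v_i(c)` of the degree
  `d K + 1` which depend polynomially on `c`; so `b(c) f ^ c` is the divergence of `v(c) f ^ (c - K)`;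
* `exact_two`: for `c = -3/d` this gives such an identity in the two variables `x₀`, `x₂`;
* `exists_primz`, `fibre_eq`: as `f = x₂ A + B` has the degree `1` in `x₂`, and as `3/d` is not an
  integer, one can integrate uniquely over `x₂`, at the cost of powers of `A` in the denominator;
* `order_contra`: this gives a differential equation in one variable for the value of the integral
  at `x₂ = 0`, and a comparison of the orders of the poles at a simple zero of `A` at which `B` does
  not vanish gives a contradiction. (This is the residue of `f ^ (1 - 3/d) / A` at this point.)

For `d = 3` the number `-3/d = -1` is always a root. -/

namespace Pool.Agent.Results.MP_b48657_ag.LargeMultiplicityForms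

open MvPolynomial Pool.Agent.W574.CN Pool.Agent.W574.MO Pool.Agent.H628R4.TP
  Pool.Agent.Helper748.MC Pool.Agent.Helper748.EQ

/-- **The equivariant motivic monodromy conjecture (over `X_s`, with the action of `μ`, in the form
with the roots of `b_f`) holds for the forms `f` of degree `d` in three variables** such that, in
some linear coordinates, `f = x₀ x₂ a(x₀, x₁) + b(x₀, x₁)` with `a(0, 1) ≠ 0` and `b(0, 1) ≠ 0`; that
is, the curve `f = 0` has a point of multiplicity `d - 1`, and some line which is a simple factor of
the tangent cone at this point is not a component of the curve. Here `b` is any polynomial
which satisfies a global or local functional equation `b(s) f ^ s = P(s) f ^ (s + 1)`, in particular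
the Bernstein-Sato polynomial of `f`, and `Z` is (of the form of) the equivariant motivic zeta
function of `f`, see `EqCone`, with `M = 𝓜^μ_{X_s}` as the main example. The conclusion is that `Z`
lies in the ring `M[T][(1 - L⁻ⁿ Tᵃ)⁻¹]`, where the pairs `a, n ≥ 1` are such that `-n/a` is a root
of `b`. -/
theorem result {M : Type} [CommRing M] (L : Mˣ) (f : MvPolynomial (Fin 3) ℂ) (d : ℕ) (hd : 0 < d)
    (hf : f.IsHomogeneous d) (h : FanForm f) (b : Polynomial ℂ)
    (hb : IsBFunction f b ∨ IsLocalBFunction f b) (Z : PowerSeries M) (hZ : EqCone L f d Z) :
    Z ∈ DenRing L (RootPair b) := by
  have hb' := global_of f h.ne_zero d hf b hb
  exact cone_eq L f d hf b (funEq_unit f b hb') (fan_single f d hd hf h b hb') Z hZ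

end Pool.Agent.Results.MP_b48657_ag.LargeMultiplicityForms
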