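import Pool.Agent.helper748_eq.Main
import Pool.Agent.helper748_tp.TameThm

set_option autoImplicit false

/-! # The equivariant motivic monodromy conjecture for forms with a tame projection

Let `f` be a form of degree `d` in three variables which has a tame projection from a point `P`, see `TameProjection` (in
`Pool.Agent.helper748_tp.T10`) and `GoodLine` (in `Pool.Agent.helper748_tp.T5`).
The equivariant motivic zeta function `Z_f(T) ∈ 𝓜^μ_{X_s}[[T]]` of Denef and Loeser, over
`X_s = {f = 0}` and with the action of `μ`, is computed from the curve `f = 0` in the projective plane
by blowing up points: see `EqCone`, where `M = 𝓜^μ_{X_s}`. The classes of the coverings `Ẽ_I°` of the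
strata of the resolution are arbitrary elements of `M` in `EqCone`, except for the intersection
points of components, and for the open parts of the exceptional curves over a point on which at
most two points have a nonzero intersection number with the other components (`IsCov`): these are
the classes which occur in the cancellation.

Geometrically (`P` may lie on the curve or not): for all lines through `P` except for finitely many
the curve meets the line in `ρ` different points outside of `P`. On a line where one of the `ρ`
points moves to `P` the others are different. Near the other exceptional lines (minus `P`) the curve
has a logarithmic vector field `(t - t₀) e ∂_t + b ∂_x`, `e(t₀) ≠ 0`; for example simple tangents and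
ordinary double points are allowed. Moreover the curve has at least three different tangent lines at
`P`, or there is no linear vector field `θ` of trace `0` with `θ f = f`, for example because the curve
has only finitely many linear automorphisms. The form need not be reduced, and the singularity at `P`
need not be quasi-homogeneous.

By `SimpleProjection.tame` (in `Pool.Agent.helper748_tp.T11`) the class contains the reduced curves
which are smooth outside of a point `P` with at least three different tangent lines such that the
discriminant of the projection from `P` is simple, under mild conditions at the tangent lines. An
example is `x₂ ^ 3 (x₀ ^ 7 - x₁ ^ 7) + x₀ ^ 4 x₁ ^ 4 x₂ ^ 2 + x₀ ^ 10 + 2 x₁ ^ 10`, where `P` is an ordinary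
point of multiplicity `7`, which is not quasi-homogeneous, and `2 / 7 < 3 / 10` (that the discriminant
is simple for this example was checked with a computer, not in Lean).

All poles except possibly `-3/d` are roots of `b` (`plane_eq`):

* `local_eq`: let `s₀` be no root of `b`. The functional equation implies that every exceptional
  curve with `ν + N s₀ = 0` has at most two points with a nonzero intersection number
  with the other components when it is created, and that these numbers are `u₁`, `u₂` with
  `u₁ + u₂ = N`; hence the covering of the curve is trivial with the group `μ_e`, `e = gcd (u₁, u₂)`,
  apart from these points, where it is the same one, and the terms with this denominator cancel,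
  by an induction over the blow-ups;
* `exists_univE`, `descent`: in the universal case, the ring `ℤ[L, L⁻¹]` with variables for all the
  classes, which is factorial, the denominators which belong to no root can be removed one by one.

The proof of `b(-3/d) = 0`, for a form `f` in the class; put `s = -3/d`:

* `ex_main`: a functional equation gives an identity
  `b(c) f ^ (K + 1) = ∑ (f ∂_i v_i(c) + (c - K) (∂_i f) v_i(c))` with forms `v_i(c)` of the degree
  `d K + 1` which depend polynomially on `c`; so `b(c) f ^ c` is the divergence of `v(c) f ^ (c - K)`;
* `exact_two`: for `c = s` this gives such an identity in the two variables `t = x₀`, `x = x₂`;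
  with `G = f(t, 1, x)` it says that `G ^ s = ∂_t (P G ^ (s - K)) + ∂_x (Q G ^ (s - K))`;
* `cop_all`, `red_all`, `red_deg`: let `g` be the product of the different factors of `G`, of the
  degree `ρ` in `x`; modulo derivatives with respect to `x` one can achieve that
  `G ^ s = ∂_t (W G ^ s) + ∂_x (U G ^ s)` with `W, U ∈ ℂ(t)[x]`, `W` of degree `≤ ρ - 2` in `x` (first
  the order of the pole along `g = 0` is reduced, and then the degree);
* `evt_W`, `no_poles`: `W` and `U` have no poles at the good lines `t = t₀`, so that they are
  polynomials: the polar part of `W` of the highest order would give a solution of
  `(G(t₀, x) ^ s Y)' = W G(t₀, x) ^ s` on the line; if `g` has `ρ` or `ρ - 1` different roots on the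
  line, then this is impossible for reasons of degree (`line_far`: with the equation for the leading
  coefficients); otherwise one uses the action of the logarithmic vector field
  `(t - t₀) e ∂_t + b ∂_x` on such solutions, its eigenvalues are determined by the roots `c` of `g`
  on the line;
* `th`, `top_le`: in the same way at the line at infinity; so `W` and `U` have degree `≤ 2`;
* `no_linear`: if there are at least three different tangent lines at `P`, the leading coefficients
  in `x` give `W = 0`, which is impossible;
* `top_two`, `linear_form`, `field_contra`: the equation on the line at infinity implies that the
  vector field `(W, U)` comes from a linear one on `ℂ ^ 3`, a multiple of its trace-free part is a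
  vector field `θ` of trace `0` which maps the form to itself. -/

namespace Pool.Agent.Results.MP_b48657_ag.ProjectionForms

open MvPolynomial Pool.Agent.W574.CN Pool.Agent.W574.MO Pool.Agent.H628R4.TP
  Pool.Agent.Helper748.MC Pool.Agent.Helper748.EQ Pool.Agent.Helper748.TP

/-- **The equivariant motivic monodromy conjecture (over `X_s`, with the action of `μ`, in the form
with the roots of `b_f`) holds for the forms `f` of degree `d` in three variables** with
`TameProjection d f`. Here `b` is any polynomial which satisfies a global or local functional
equation `b(s) f ^ s = P(s) f ^ (s + 1)`, in particular the Bernstein-Sato polynomial of `f`, and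
`Z` is (of the form of) the equivariant motivic zeta function of `f`, see `EqCone`, with
`M = 𝓜^μ_{X_s}` as the main example. The conclusion is that `Z` lies in the ring
`M[T][(1 - L⁻ⁿ Tᵃ)⁻¹]`, where the pairs `a, n ≥ 1` are such that `-n/a` is a root of `b`. -/
theorem result {M : Type} [CommRing M] (L : Mˣ) (f : MvPolynomial (Fin 3) ℂ) (d : ℕ)
    (hf : f.IsHomogeneous d) (h : TameProjection d f) (b : Polynomial ℂ)
    (hb : IsBFunction f b ∨ IsLocalBFunction f b) (Z : PowerSeries M) (hZ : EqCone L f d Z) :
    Z ∈ DenRing L (RootPair b) := by
  have hb' := global_of f (not_exact_tame hf h).1 d hf b hb
  exact cone_eq L f d hf b (funEq_unit f b hb') (tame_single f d hf h b hb') Z hZ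

end Pool.Agent.Results.MP_b48657_ag.ProjectionForms
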