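import Pool.Agent.helper748_eq.Main
import Pool.Agent.helper748_mc.Thm

set_option autoImplicit false

/-! # The equivariant motivic monodromy conjecture for strictly semistable forms in three variables

Let `f` be a form of degree `d > 0` in three variables which is strictly semistable, or satisfies
`BoundaryForm`. The equivariant motivic zeta function `Z_f(T) ∈ 𝓜^μ_{X_s}[[T]]` of Denef and Loeser, over
`X_s = {f = 0}` and with the action of `μ`, is computed from the curve `f = 0` in the projective plane
by blowing up points: see `EqCone`, where `M = 𝓜^μ_{X_s}`. The classes of the coverings `Ẽ_I°` of the
strata of the resolution are arbitrary elements of `M` in `EqCone`, except for the intersection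
points of components, and for the open parts of the exceptional curves over a point on which at
most two points have a nonzero intersection number with the other components (`IsCov`): these are
the classes which occur in the cancellation.

All poles except possibly `-3/d` are roots of `b` (`plane_eq`):

* `local_eq`: let `s₀` be no root of `b`. The functional equation implies that every exceptional
  curve with `ν + N s₀ = 0` has at most two points with a nonzero intersection number
  with the other components when it is created, and that these numbers are `u₁`, `u₂` with
  `u₁ + u₂ = N`; hence the covering of the curve is trivial with the group `μ_e`, `e = gcd (u₁, u₂)`,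
  apart from these points, where it is the same one, and the terms with this denominator cancel,
  by an induction over the blow-ups;
* `exists_univE`, `descent`: in the universal case, the ring `ℤ[L, L⁻¹]` with variables for all the
  classes, which is factorial, the denominators which belong to no root can be removed one by one.

The proof of `b(-3/d) = 0`:

* `ex_main`: a functional equation gives an identity
  `b(c) f ^ (K + 1) = ∑ (f ∂_i v_i(c) + (c - K) (∂_i f) v_i(c))` with forms `v_i(c)` of the degree
  `d K + 1` which depend polynomially on `c`; so `b(c) f ^ c` is the divergence of `v(c) f ^ (c - K)`;
* `exact_initial`: if `f ^ s` is such a divergence, and all monomials of `f` have a weight `≥ 0`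
  for a weight `w` with the sum `0`, then the same holds for the part of the weight `0` of `f`;
* `log_eq`, `uni_main`: if moreover the barycenter lies in the convex hull of the monomials of the
  weight `0`, one gets a differential equation in one variable which has no solution for
  `s = -3/d`;
* `exists_face`: for strictly semistable forms there are linear coordinates in which this
  applies. -/

namespace Pool.Agent.Results.MP_b48657_ag.StrictlySemistableForms

open MvPolynomial Pool.Agent.W574.CN Pool.Agent.W574.MO Pool.Agent.H628R4.TP
  Pool.Agent.Helper748.MC Pool.Agent.Helper748.EQ

/-- **The equivariant motivic monodromy conjecture (over `X_s`, with the action of `μ`, in the form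
with the roots of `b_f`) holds for strictly semistable forms in three variables**, and more
generally for all forms `f` of degree `d` in three variables such that, in some linear coordinates,
the barycenter `(d/3, d/3, d/3)` is on the boundary of the Newton polygon of `f`, on an edge (or
vertex) which contains no permutation of `(0, d/3, 2d/3)`. Here `b` is any polynomial which
satisfies a global or local functional equation `b(s) f ^ s = P(s) f ^ (s + 1)`, in particular the
Bernstein-Sato polynomial of `f`, and `Z` is (of the form of) the equivariant motivic zeta function
of `f`, see `EqCone`, with `M = 𝓜^μ_{X_s}` as the main example. The conclusion is that `Z` lies in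
the ring `M[T][(1 - L⁻ⁿ Tᵃ)⁻¹]`, where the pairs `a, n ≥ 1` are such that `-n/a` is a root of
`b`. -/
theorem result {M : Type} [CommRing M] (L : Mˣ) (f : MvPolynomial (Fin 3) ℂ) (d : ℕ) (hd : 0 < d)
    (hf : f.IsHomogeneous d) (h : StrictlySemistable f ∨ BoundaryForm d f) (b : Polynomial ℂ)
    (hb : IsBFunction f b ∨ IsLocalBFunction f b) (Z : PowerSeries M) (hZ : EqCone L f d Z) :
    Z ∈ DenRing L (RootPair b) := by
  obtain ⟨hf0, hE⟩ := not_exact_of hd hf h
  have hb' := global_of f hf0 d hf b hb
  have hl : lcomb (fun _ : Unit => f) (fun _ => 1) = f := by
    rw [lcomb, Finset.univ_unique, Finset.sum_singleton, C_1, one_mul]
  have hb2 := funEq_unit f b hb'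
  have hr := root_of_not_exact (fun _ : Unit => f) d hd (fun _ => hf) b hb2
    (fun _ => 1) (by rw [hl]; exact hf0) (by rw [hl]; exact hE)
  exact cone_eq L f d hf b hb2 hr Z hZ

end Pool.Agent.Results.MP_b48657_ag.StrictlySemistableForms
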